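import Pool.Agent.HEC.Stmts

/-!
HEC, row CNT (numbers of edges), by helper5.
-/

set_option autoImplicit false

namespace Pool.Agent.HEC.H5

open Finset Pool.Agent.HEC

theorem cnt_split {α : Type} [Fintype α] (p q r : α → Prop) (h1 : ∀ a, p a ↔ q a ∨ r a)
    (h2 : ∀ a, q a → ¬ r a) : cnt p = cnt q + cnt r := by
  classical
  unfold cnt
  have hd : Disjoint (univ.filter q) (univ.filter r) := by
    rw [Finset.disjoint_filter]
    exact fun a _ hq => h2 a hq
  have h3 := Finset.card_union_of_disjoint hd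
  have h4 : univ.filter q ∪ univ.filter r = univ.filter p := by
    ext a
    simp only [mem_union, mem_filter, mem_univ, true_and]
    exact (h1 a).symm
  rw [h4] at h3
  exact h3

theorem e2_split {V : Type} [Fintype V] (F : SimpleGraph V) (t : V → Bool) :
    e2 F = e2 (dif F t) + e2 (sam F t) := by
  unfold e2
  apply cnt_split
  · intro a
    constructor
    · intro h
      by_cases ht : t a.1 = t a.2
      · exact Or.inr ⟨h, ht⟩
      · exact Or.inl ⟨h, ht⟩
    · rintro (h | h)
      · exact h.1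
      · exact h.1
  · intro a h h'
    exact h.2 h'.2

theorem e2_cut {V : Type} [Fintype V] (F : SimpleGraph V) : e2 F = ∑ v : V, cut F {v} := by
  classical
  unfold e2 cut cnt
  rw [Finset.card_eq_sum_card_fiberwise (f := fun p : V × V => p.1) (t := univ)
    (fun _ _ => by simp)]
  refine Finset.sum_congr rfl fun v _ => ?_
  congr 1
  ext p
  simp only [mem_filter, mem_univ, true_and, mem_singleton]
  constructor
  · rintro ⟨h1, h2⟩
    refine ⟨h2, ?_, h1⟩
    intro h3
    rw [h2, h3] at h1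
    exact F.loopless.irrefl v h1
  · rintro ⟨h1, _, h3⟩
    exact ⟨h3, h1⟩

/-- row CNT -/
theorem cnt_row : CntStmt := by
  intro V _ G N
  have h1 := e2_split G N.t1
  have h2 := e2_split (sam G N.t1) N.t2
  have h3 := e2_split (sam (sam G N.t1) N.t2) N.t3
  have h4 := e2_split (sam (sam (sam G N.t1) N.t2) N.t3) N.t4
  have h5 : e2 (sam G N.t1) ≤ e2 (dif G N.t1) := by
    rw [e2_cut, e2_cut]
    exact Finset.sum_le_sum fun v _ => N.c1 {v}
  have k1 : e2 N.H = e2 (dif G N.t1) := rfl
  have k2 : e2 N.E2 = e2 (dif (sam G N.t1) N.t2) := rfl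
  have k3 : e2 N.E3 = e2 (dif (sam (sam G N.t1) N.t2) N.t3) := rfl
  have k4 : e2 N.E4 = e2 (dif (sam (sam (sam G N.t1) N.t2) N.t3) N.t4) := rfl
  have k5 : e2 N.S = e2 (sam (sam (sam (sam G N.t1) N.t2) N.t3) N.t4) := rfl
  omega

end Pool.Agent.HEC.H5
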